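import Pool.Agent.Helper6.LP.St

/-!
# Project LP, module LOP: local densities
-/

set_option autoImplicit false

noncomputable section

namespace Pool.Agent.Helper41.LP

open Finset
open Pool.Agent.Helper60.LZ (js)
open Pool.Agent.Helper6.LP

/-- the roots of the first polynomial -/
private def RA (l : ℕ) [NeZero l] (y : ZMod l) : Finset (ZMod l) :=
  univ.filter (fun n : ZMod l => n - y + n * y = 0)

/-- the roots of the second polynomial -/
private def RB (l : ℕ) [NeZero l] (y : ZMod l) : Finset (ZMod l) :=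
  univ.filter (fun n : ZMod l => (n - y) ^ 2 + n * y ^ 2 = 0)

private theorem memRA {l : ℕ} [NeZero l] (y n : ZMod l) : n ∈ RA l y ↔ n - y + n * y = 0 := by
  unfold RA
  simp

private theorem memRB {l : ℕ} [NeZero l] (y n : ZMod l) :
    n ∈ RB l y ↔ (n - y) ^ 2 + n * y ^ 2 = 0 := by
  unfold RB
  simp

private theorem memSS {P a y l : ℕ} (s : ℕ) :
    s ∈ SS P a y l ↔ s < l ∧
      (((a : ZMod l) + P * s) - y + ((a : ZMod l) + P * s) * y) *
        ((((a : ZMod l) + P * s) - y) ^ 2 + ((a : ZMod l) + P * s) * (y : ZMod l) ^ 2) = 0 := by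
  unfold SS ff fa fb
  rw [mem_filter, mem_range, ← ZMod.intCast_zmod_eq_zero_iff_dvd]
  push_cast
  rfl

private theorem cardSS {P a l : ℕ} (hl : l.Prime) [NeZero l] (hP : ¬ l ∣ P) (y : ℕ) :
    (SS P a y l).card ≤ (RA l (y : ZMod l) ∪ RB l (y : ZMod l)).card := by
  have : Fact l.Prime := ⟨hl⟩
  have hP0 : (P : ZMod l) ≠ 0 := by
    rw [Ne, ZMod.natCast_eq_zero_iff]
    exact hP
  refine Finset.card_le_card_of_injOn (fun s => (a : ZMod l) + P * s) ?_ ?_
  · intro s hs
    have h := ((memSS s).1 (mem_coe.1 hs)).2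
    rw [mem_coe, mem_union, memRA, memRB]
    exact mul_eq_zero.1 h
  · intro s hs t ht hst
    have h1 := ((memSS s).1 (mem_coe.1 hs)).1
    have h2 := ((memSS t).1 (mem_coe.1 ht)).1
    have h3 : (P : ZMod l) * s = P * t := add_left_cancel hst
    have h4 := mul_left_cancel₀ hP0 h3
    rw [ZMod.natCast_eq_natCast_iff', Nat.mod_eq_of_lt h1, Nat.mod_eq_of_lt h2] at h4
    exact h4

private theorem cardRA {l : ℕ} [NeZero l] [Fact l.Prime] (y : ZMod l) : (RA l y).card ≤ 1 := by
  rw [card_le_one]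
  intro n hn n' hn'
  rw [memRA] at hn hn'
  have h : (n - n') * (y + 1) = 0 := by linear_combination hn - hn'
  rcases mul_eq_zero.1 h with h1 | h1
  · exact sub_eq_zero.1 h1
  · exfalso
    have h2 : (1 : ZMod l) = 0 := by linear_combination hn - (n - 1) * h1
    exact one_ne_zero h2

private theorem cardRB {l : ℕ} [NeZero l] [Fact l.Prime] (h3 : 3 < l) (y : ℤ) :
    ((RB l (y : ZMod l)).card : ℤ) ≤ jacobiSym ((y - 2) ^ 2 - 4) l + 1 := by
  have h2l : l ≠ 2 := by omega
  rw [← jacobiSym.legendreSym.to_jacobiSym, ← legendreSym.card_sqrts l h2l]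
  have h20 : (2 : ZMod l) ≠ 0 := by
    have h : ((2 : ℕ) : ZMod l) ≠ 0 := by
      rw [Ne, ZMod.natCast_eq_zero_iff]
      intro h
      exact absurd (Nat.le_of_dvd (by norm_num) h) (by omega)
    exact_mod_cast h
  by_cases hy : (y : ZMod l) = 0
  · have hs : RB l (y : ZMod l) ⊆ {x : ZMod l | x ^ 2 = (((y - 2) ^ 2 - 4 : ℤ) : ZMod l)}.toFinset := by
      intro n hn
      rw [memRB, hy] at hn
      rw [Set.mem_toFinset]
      change n ^ 2 = (((y - 2) ^ 2 - 4 : ℤ) : ZMod l)
      push_cast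
      rw [hy]
      linear_combination hn
    exact_mod_cast card_le_card hs
  · have hc : (RB l (y : ZMod l)).card ≤
        ({x : ZMod l | x ^ 2 = (((y - 2) ^ 2 - 4 : ℤ) : ZMod l)}.toFinset).card := by
      refine Finset.card_le_card_of_injOn
        (fun n => (2 * n + (y : ZMod l) ^ 2 - 2 * (y : ZMod l)) * (y : ZMod l)⁻¹) ?_ ?_
      · intro n hn
        rw [mem_coe, memRB] at hn
        rw [mem_coe, Set.mem_toFinset]
        change ((2 * n + (y : ZMod l) ^ 2 - 2 * (y : ZMod l)) * (y : ZMod l)⁻¹) ^ 2 =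
          (((y - 2) ^ 2 - 4 : ℤ) : ZMod l)
        push_cast
        have e : (2 * n + (y : ZMod l) ^ 2 - 2 * (y : ZMod l)) ^ 2 =
            (((y : ZMod l) - 2) ^ 2 - 4) * (y : ZMod l) ^ 2 := by linear_combination 4 * hn
        rw [mul_pow, e, mul_assoc, ← mul_pow, mul_inv_cancel₀ hy, one_pow, mul_one]
      · intro n _ n' _ h
        have h4 : (2 * n + (y : ZMod l) ^ 2 - 2 * (y : ZMod l)) * (y : ZMod l)⁻¹ =
          (2 * n' + (y : ZMod l) ^ 2 - 2 * (y : ZMod l)) * (y : ZMod l)⁻¹ := h
        have h5 := mul_right_cancel₀ (inv_ne_zero hy) h4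
        have h6 : 2 * (n - n') = 0 := by linear_combination h5
        exact sub_eq_zero.1 ((mul_eq_zero.1 h6).resolve_left h20)
    exact_mod_cast hc

private theorem dvd_of {l : ℕ} {t : ℤ} (h : (t : ZMod l) = 0) : l ∣ t.natAbs := by
  rw [ZMod.intCast_zmod_eq_zero_iff_dvd] at h
  exact Int.natCast_dvd.1 h

/-- LOP. -/
theorem hLOP : StLOP := by
  intro P a l hl h3 hP
  have : Fact l.Prime := ⟨hl⟩
  have : NeZero l := ⟨hl.ne_zero⟩
  refine ⟨fun y hy => ?_, fun y z hD => ?_⟩
  · have h1 := (cardSS (a := a) hl hP y).trans (card_union_le _ _)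
    have h2 := cardRA (l := l) (y : ZMod l)
    have h4 := cardRB (l := l) h3 (y : ℤ)
    have e : (((y : ℤ)) : ZMod l) = (y : ZMod l) := by push_cast; rfl
    rw [e] at h4
    have h5 : ((SS P a y l).card : ℤ) ≤ 2 + jacobiSym (((y : ℤ) - 2) ^ 2 - 4) l := by
      have h6 : ((SS P a y l).card : ℤ) ≤ (RA l (y : ZMod l)).card + (RB l (y : ZMod l)).card := by
        exact_mod_cast h1
      have h7 : ((RA l (y : ZMod l)).card : ℤ) ≤ 1 := by exact_mod_cast h2
      linarith
    have ht : ((y - 2 : ℕ) : ℤ) = (y : ℤ) - 2 := by omega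
    unfold js
    rw [ht]
    exact_mod_cast h5
  · rw [Finset.disjoint_left]
    intro s hs hs'
    have h1 := ((memSS s).1 hs).2
    have h2 := ((memSS s).1 hs').2
    obtain ⟨n, hn⟩ : ∃ n : ZMod l, n = (a : ZMod l) + P * s := ⟨_, rfl⟩
    rw [← hn] at h1 h2
    apply hD
    unfold DD
    rcases mul_eq_zero.1 h1 with ha | hb
    · rcases mul_eq_zero.1 h2 with ha' | hb'
      · -- both first
        refine Dvd.dvd.mul_right (Dvd.dvd.mul_right (Dvd.dvd.mul_right (dvd_of ?_) _) _) _
        push_cast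
        have h4 : ((y : ZMod l) - z) * (n - 1) = 0 := by linear_combination ha - ha'
        rcases mul_eq_zero.1 h4 with h5 | h5
        · exact h5
        · exfalso
          have h6 : (1 : ZMod l) = 0 := by linear_combination ha - (1 + (y : ZMod l)) * h5
          exact one_ne_zero h6
      · refine Dvd.dvd.mul_right (Dvd.dvd.mul_right (Dvd.dvd.mul_left (dvd_of ?_) _) _) _
        unfold rA
        push_cast
        linear_combination ((y : ZMod l) + 1) ^ 2 * hb' - ((y : ZMod l) + n * (y + 1) +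
          ((z : ZMod l) ^ 2 - 2 * z) * (y + 1)) * ha
    · rcases mul_eq_zero.1 h2 with ha' | hb'
      · refine Dvd.dvd.mul_right (Dvd.dvd.mul_left (dvd_of ?_) _) _
        unfold rA
        push_cast
        linear_combination ((z : ZMod l) + 1) ^ 2 * hb - ((z : ZMod l) + n * (z + 1) +
          ((y : ZMod l) ^ 2 - 2 * y) * (z + 1)) * ha'
      · have h4 : ((y : ZMod l) - z) * (((y : ZMod l) + z - 2) * n + (y + z)) = 0 := by
          linear_combination hb - hb'
        rcases mul_eq_zero.1 h4 with h5 | h5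
        · refine Dvd.dvd.mul_right (Dvd.dvd.mul_right (Dvd.dvd.mul_right (dvd_of ?_) _) _) _
          push_cast
          exact h5
        · refine Dvd.dvd.mul_left (dvd_of ?_) _
          unfold rB
          push_cast
          linear_combination ((y : ZMod l) + z - 2) ^ 2 * hb - ((((y : ZMod l) + z - 2) * n + (y + z)) -
            2 * ((y : ZMod l) + z) + ((y : ZMod l) ^ 2 - 2 * y) * ((y : ZMod l) + z - 2)) * h5

end Pool.Agent.Helper41.LP
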