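import Pool.Agent.Helper6.LP.St

/-!
# Project LP, module MOA: the first moment
-/

set_option autoImplicit false

noncomputable section

namespace Pool.Agent.Helper41.LP

open Finset
open Pool.Agent.Helper6.LP

/-- MODULE MOA -/
theorem hMOA (hO : StONE) : StMOA := by
  classical
  intro ε hε
  obtain ⟨B, hB⟩ := hO ε hε
  refine ⟨B, ?_⟩
  intro A Λ p w P a r J M hp hw hP hΛ hV
  obtain ⟨T, hT⟩ : ∃ T : Finset ℕ, T = TT A p w P r J := ⟨_, rfl⟩
  have hT6 : ∀ j ∈ T, 6 ≤ r + P * j := by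
    intro j hj
    rw [hT] at hj
    unfold TT at hj
    exact (mem_filter.1 hj).2.1
  have hsum : ∑ m ∈ Icc 1 M, XX A p w P a r J m = ∑ j ∈ T, (VV p w P a (r + P * j))⁻¹ *
      (((Icc 1 M).filter (fun m : ℕ => Sf p w ((a : ℤ) + P * m) ((r + P * j : ℕ) : ℤ))).card : ℝ) := by
    have e1 : ∀ m ∈ Icc 1 M, XX A p w P a r J m = ∑ j ∈ T,
        if Sf p w ((a : ℤ) + P * m) ((r + P * j : ℕ) : ℤ) then (VV p w P a (r + P * j))⁻¹ else 0 := by
      intro m _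
      unfold XX
      rw [hT, sum_filter]
    rw [sum_congr rfl e1, sum_comm]
    refine sum_congr rfl fun j _ => ?_
    rw [← sum_filter, sum_const, nsmul_eq_mul, mul_comm]
  rw [hsum]
  rw [← hT] at hV ⊢
  have hterm : ∀ j ∈ T, (1 - ε) * M - Λ * (w : ℝ) ^ B ≤ (VV p w P a (r + P * j))⁻¹ *
      (((Icc 1 M).filter (fun m : ℕ => Sf p w ((a : ℤ) + P * m) ((r + P * j : ℕ) : ℤ))).card : ℝ) := by
    intro j hj
    have h1 := (abs_le.1 (hB p P a (r + P * j) w M hp hP hw (by have := hT6 j hj; omega))).1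
    have h2 := hV j hj
    obtain ⟨V, hVd⟩ : ∃ V : ℝ, V = VV p w P a (r + P * j) := ⟨_, rfl⟩
    rw [← hVd] at h1 h2 ⊢
    have hΛ0 : 0 < Λ := by linarith
    have hV0 : 0 < V := by
      by_contra h
      push Not at h
      nlinarith
    obtain ⟨c, hc⟩ : ∃ c : ℝ, c = (((Icc 1 M).filter (fun m : ℕ =>
      Sf p w ((a : ℤ) + P * m) ((r + P * j : ℕ) : ℤ))).card : ℝ) := ⟨_, rfl⟩
    rw [← hc] at h1 ⊢
    have h3 : V⁻¹ ≤ Λ := by
      rw [inv_le_iff_one_le_mul₀ hV0]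
      exact h2
    have hw0 : (0 : ℝ) ≤ (w : ℝ) ^ B := by positivity
    have h4 : (1 - ε) * (M * V) - (w : ℝ) ^ B ≤ c := by linarith
    calc (1 - ε) * M - Λ * (w : ℝ) ^ B ≤ (1 - ε) * M - V⁻¹ * (w : ℝ) ^ B := by
          have := mul_le_mul_of_nonneg_right h3 hw0
          linarith
      _ = V⁻¹ * ((1 - ε) * (M * V) - (w : ℝ) ^ B) := by
          field_simp
      _ ≤ V⁻¹ * c := mul_le_mul_of_nonneg_left h4 (inv_nonneg.2 hV0.le)
  calc (1 - ε) * (M * (T.card : ℝ)) - T.card * Λ * (w : ℝ) ^ B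
      = ∑ j ∈ T, ((1 - ε) * M - Λ * (w : ℝ) ^ B) := by
        rw [sum_const, nsmul_eq_mul]
        ring
    _ ≤ _ := sum_le_sum hterm

end Pool.Agent.Helper41.LP
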