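import Pool.Agent.Helper6.LP.St

/-!
# Project LP, module VLP: lower bound for the density
-/

set_option autoImplicit false

noncomputable section

namespace Pool.Agent.Helper41.LP

open Finset
open Pool.Agent.Helper60.LZ (js)
open Pool.Agent.Helper98.LM (QQ)
open Pool.Agent.Helper15.AB (StMT)
open Pool.Agent.Helper6.LP

private theorem fac_VLP {x : ℝ} (h0 : 0 ≤ x) (h1 : x ≤ 1 / 2) :
    Real.exp (-(x + 2 * x ^ 2)) ≤ 1 - x := by
  rw [Real.exp_neg]
  have h2 : 1 + x + 2 * x ^ 2 ≤ Real.exp (x + 2 * x ^ 2) := by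
    have := Real.add_one_le_exp (x + 2 * x ^ 2)
    linarith
  have h3 : 0 < 1 + x + 2 * x ^ 2 := by positivity
  calc (Real.exp (x + 2 * x ^ 2))⁻¹ ≤ (1 + x + 2 * x ^ 2)⁻¹ := inv_anti₀ h3 h2
    _ ≤ 1 - x := by
      rw [inv_le_iff_one_le_mul₀ h3]
      nlinarith [mul_nonneg (sq_nonneg x) (by linarith : 0 ≤ 1 - 2 * x)]

private theorem js_bd (t l : ℕ) : -1 ≤ js t l ∧ js t l ≤ 1 := by
  unfold js
  rcases jacobiSym.trichotomy ((t : ℤ) ^ 2 - 4) l with h | h | h <;> rw [h] <;> norm_num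

/-- MODULE VLP -/
theorem hVLP (hL : StLOP) (hM : StMT) : StVLP := by
  classical
  obtain ⟨C, hC, hM⟩ := hM
  have hsum2 : Summable (fun n : ℕ => 1 / (n : ℝ) ^ 2) := by
    exact_mod_cast Real.summable_one_div_nat_pow.2 (by norm_num : 1 < 2)
  obtain ⟨Z, hZ⟩ : ∃ Z, Z = ∑' n : ℕ, 1 / (n : ℝ) ^ 2 := ⟨_, rfl⟩
  refine ⟨Real.exp (-(2 * C + 18 * Z)), Real.exp_pos _, ?_⟩
  intro p w P a y hp hw hP hy
  have hw3 : (3 : ℝ) ≤ w := by exact_mod_cast hw
  have hlog : 0 < Real.log w := Real.log_pos (by linarith)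
  have h1 : ∀ l ∈ QQ p w,
      Real.exp (-(2 * (1 / (l : ℝ)) + js (y - 2) l / l + 18 * (1 / (l : ℝ) ^ 2))) ≤
        1 - ((SS P a y l).card : ℝ) / l := by
    intro l hl
    unfold QQ at hl
    rw [mem_filter, mem_Ioc] at hl
    obtain ⟨⟨h1, h2⟩, h3⟩ := hl
    have hl7 : (7 : ℝ) < l := by exact_mod_cast (by omega : 7 < l)
    have hl0 : (0 : ℝ) < l := by linarith
    have hlP : ¬ l ∣ P := fun h => absurd (hP l h3 h) (by omega)
    have hc := (hL P a l h3 (by omega) hlP).1 y hy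
    obtain ⟨j1, j2⟩ := js_bd (y - 2) l
    have hx : (2 + js (y - 2) l) / l ≤ 1 / 2 := by
      rw [div_le_iff₀ hl0]
      linarith
    have hx0 : 0 ≤ (2 + js (y - 2) l) / l := div_nonneg (by linarith) hl0.le
    have hf := fac_VLP hx0 hx
    have h4 : ((SS P a y l).card : ℝ) / l ≤ (2 + js (y - 2) l) / l :=
      div_le_div_of_nonneg_right hc hl0.le
    have h5 : (2 + js (y - 2) l) / l + 2 * ((2 + js (y - 2) l) / l) ^ 2 ≤
        2 * (1 / (l : ℝ)) + js (y - 2) l / l + 18 * (1 / (l : ℝ) ^ 2) := by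
      have e1 : (2 + js (y - 2) l) / l + 2 * ((2 + js (y - 2) l) / l) ^ 2 =
          2 * (1 / (l : ℝ)) + js (y - 2) l / l + (2 * (2 + js (y - 2) l) ^ 2) * (1 / (l : ℝ) ^ 2) := by
        field_simp
      rw [e1]
      have h6 : 2 * (2 + js (y - 2) l) ^ 2 ≤ 18 := by nlinarith
      have h7 : 0 ≤ 1 / (l : ℝ) ^ 2 := by positivity
      nlinarith
    have h8 := Real.exp_le_exp.2 (neg_le_neg h5)
    linarith
  have h2 : Real.exp (-∑ l ∈ QQ p w,
      (2 * (1 / (l : ℝ)) + js (y - 2) l / l + 18 * (1 / (l : ℝ) ^ 2))) ≤ VV p w P a y := by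
    unfold VV
    rw [← Finset.sum_neg_distrib, Real.exp_sum]
    exact Finset.prod_le_prod (fun l _ => (Real.exp_pos _).le) h1
  have h3 : ∑ l ∈ QQ p w, (2 * (1 / (l : ℝ)) + js (y - 2) l / l + 18 * (1 / (l : ℝ) ^ 2)) ≤
      2 * Real.log (Real.log w) + |cs p w y| + (2 * C + 18 * Z) := by
    have hsub : QQ p w ⊆ (Icc 1 ⌊(w : ℝ)⌋₊).filter Nat.Prime := by
      intro l hl
      unfold QQ at hl
      rw [mem_filter, mem_Ioc] at hl
      rw [Nat.floor_natCast, mem_filter, mem_Icc]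
      obtain ⟨⟨h1, h2⟩, h3⟩ := hl
      exact ⟨⟨h3.one_le, h2⟩, h3⟩
    rw [Finset.sum_add_distrib, Finset.sum_add_distrib]
    have a1 : ∑ l ∈ QQ p w, 2 * (1 / (l : ℝ)) ≤ 2 * Real.log (Real.log w) + 2 * C := by
      have b1 := Finset.sum_le_sum_of_subset_of_nonneg (f := fun l : ℕ => (1 : ℝ) / l) hsub
        (fun l _ _ => by positivity)
      have b2 := (abs_le.1 (hM w hw3)).2
      rw [← Finset.mul_sum]
      linarith
    have a2 : ∑ l ∈ QQ p w, 18 * (1 / (l : ℝ) ^ 2) ≤ 18 * Z := by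
      rw [← Finset.mul_sum, hZ]
      exact mul_le_mul_of_nonneg_left (hsum2.sum_le_tsum _ (fun l _ => by positivity))
        (by norm_num)
    have a3 : ∑ l ∈ QQ p w, js (y - 2) l / l ≤ |cs p w y| := le_abs_self _
    linarith
  calc Real.exp (-(2 * C + 18 * Z)) * Real.exp (-|cs p w y|) / Real.log w ^ 2 =
      Real.exp (-(2 * Real.log (Real.log w) + |cs p w y| + (2 * C + 18 * Z))) := by
        have e1 : -(2 * Real.log (Real.log w) + |cs p w y| + (2 * C + 18 * Z)) =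
            -(2 * C + 18 * Z) + -|cs p w y| + (-Real.log (Real.log w) + -Real.log (Real.log w)) := by
          ring
        rw [e1, Real.exp_add, Real.exp_add, Real.exp_add (-Real.log (Real.log w)),
          Real.exp_neg (Real.log (Real.log w)), Real.exp_log hlog]
        field_simp
    _ ≤ Real.exp (-∑ l ∈ QQ p w,
        (2 * (1 / (l : ℝ)) + js (y - 2) l / l + 18 * (1 / (l : ℝ) ^ 2))) :=
        Real.exp_le_exp.2 (neg_le_neg h3)
    _ ≤ VV p w P a y := h2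

end Pool.Agent.Helper41.LP
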